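import Mathlib
import Pool.Agent.Q315.OF.Char
import Pool.Agent.Q315.OF.Lat

/-!
# Finite fundamental groups of Calabi-Yau varieties

Let `X` be a Calabi-Yau variety with finite fundamental group and let `Y` be its universal cover.
For `x` in `H²(Y; ℤ)` let `P(x)` be the integral of `e^x Â(Y)`, the holomorphic Euler characteristic
of `L` if `x` is the first Chern class of `L`. The order of `π₁(X)` divides `P(x)²` if `x` is
invariant under `π₁(X)`, and it divides `|GL(b, 𝔽₃)| P(x)²` for all `x`, `b` the second Betti number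
of `Y`. So the order of `π₁(X)` is bounded in terms of the topological type of `Y`. If the simply
connected Calabi-Yau varieties of some dimension have only finitely many topological types, then
there are only finitely many possibilities for the finite fundamental groups of Calabi-Yau varieties
of this dimension and for the rational cohomology rings with Pontryagin classes of the varieties.
-/

set_option autoImplicit false

namespace Pool.Agent.Results.MP_3d72f2_ag.OrderOfFundamentalGroup

open Pool.Agent.Q315.OF (HasTheta)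

/-- A closed simply connected spin manifold: its points, its group of diffeomorphisms which preserve
the orientation, its second integral cohomology group, the action of the diffeomorphisms on the
points and on the cohomology, and the function `P(x) = ∫ e^x Â(Y)`. -/
structure Mfd where
  Pt : Type
  Diff : Type
  [grp : Group Diff]
  H2 : Type
  [add : AddCommGroup H2]
  act : Diff → Pt → Pt
  rho : Diff →* (H2 →ₗ[ℤ] H2)
  P : H2 → ℤ

attribute [instance] Mfd.grp Mfd.add

/-- `g` has no fixed point -/
def NoFix (Y : Mfd) (g : Y.Diff) : Prop := ∀ p, Y.act g p ≠ p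

/-- `G` acts without fixed points -/
def ActsFreely (Y : Mfd) (G : Subgroup Y.Diff) : Prop := ∀ g ∈ G, g ≠ 1 → NoFix Y g

/-- The known properties of `Y`: the group `H²(Y; ℤ)` is free and finitely generated; for every
finite group `G` of diffeomorphisms and every `G`-invariant class `x` an extension of `G` acts on
kernel and cokernel of the Dirac operator twisted by `x`, the kernel of the extension acts by
scalars, the index is `P x`, and the alternating sum of the traces of an element is zero if its
image in `G` has no fixed point (Atiyah, Bott, Singer). -/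
structure IsKnown (Y : Mfd) : Prop where
  free : Module.Free ℤ Y.H2
  finite : Module.Finite ℤ Y.H2
  theta : ∀ G : Subgroup Y.Diff, Finite G → ∀ x : Y.H2, (∀ g ∈ G, Y.rho g x = x) →
    HasTheta G (fun g => NoFix Y g) (Y.P x)

/-- A class `C` of Calabi-Yau varieties with finite fundamental groups: the universal covers `uc X`,
the groups `deck X` of deck transformations, the topological types `top X` of the universal covers.
Known properties: the fundamental groups are finite and act without fixed points; `P` is not zero;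
`H²` and `P` (up to the sign) are determined by the topological type (Novikov). -/
structure IsClass {C T : Type} (uc : C → Mfd) (deck : ∀ X, Subgroup (uc X).Diff) (top : C → T) :
    Prop where
  known : ∀ X, IsKnown (uc X)
  finite : ∀ X, Finite (deck X)
  free : ∀ X, ActsFreely (uc X) (deck X)
  ne : ∀ X, ∃ x, (uc X).P x ≠ 0
  novikov : ∀ X X', top X = top X' →
    ∃ φ : (uc X).H2 ≃+ (uc X').H2, ∀ x, |(uc X').P (φ x)| = |(uc X).P x|

/-- For every topological type `t` of universal covers: a group `Γ t`, the images `im` in `Γ t` of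
the fundamental groups of the varieties with this universal cover, and an invariant `inv` of the
varieties. Known properties for the group of automorphisms of the ring `H^*(Y; ℤ)/torsion` with the
Pontryagin classes, and for the rational cohomology ring of `X` with the Pontryagin classes: `Γ t` is
arithmetic and so has only finitely many classes of conjugate finite subgroups (Borel,
Harish-Chandra), and the invariant is determined by the class of the image, because it is the ring of
elements fixed by the image. -/
structure IsInvariant {C T I : Type} (top : C → T) (Γ : T → Type) [∀ t, Group (Γ t)]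
    (im : ∀ t, {X // top X = t} → Subgroup (Γ t)) (inv : C → I) : Prop where
  finite : ∀ t X, Finite (im t X)
  bhc : ∀ t, ∃ S : Set (Subgroup (Γ t)), S.Finite ∧ ∀ H : Subgroup (Γ t), Finite H →
    ∃ γ : Γ t, H.map (MulAut.conj γ).toMonoidHom ∈ S
  inv : ∀ t (X X' : {X // top X = t}) (γ : Γ t),
    im t X' = (im t X).map (MulAut.conj γ).toMonoidHom → inv X = inv X'

theorem part1 (Y : Mfd) (hY : IsKnown Y) (G : Subgroup Y.Diff) (hG : Finite G)
    (hfree : ActsFreely Y G) (x : Y.H2) (hx : ∀ g ∈ G, Y.rho g x = x) :
    (Nat.card G : ℤ) ∣ Y.P x ^ 2 := by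
  refine Pool.Agent.Q315.OF.card_dvd ((hY.theta G hG x hx).mono ?_)
  intro g hg
  exact hfree g.1 g.2 fun h => hg (Subtype.ext h)

theorem part2 (Y : Mfd) (hY : IsKnown Y) (G : Subgroup Y.Diff) (hG : Finite G)
    (hfree : ActsFreely Y G) (x : Y.H2) :
    (Nat.card G : ℤ) ∣ (Nat.card (Matrix (Fin (Module.finrank ℤ Y.H2))
      (Fin (Module.finrank ℤ Y.H2)) (ZMod 3))ˣ : ℤ) * Y.P x ^ 2 := by
  have := hY.free
  have := hY.finite
  let φ : G →* (Y.H2 →ₗ[ℤ] Y.H2) := Y.rho.comp G.subtype
  have h1 := Pool.Agent.Q315.OF.card_dvd_mul φ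
  -- the kernel as a subgroup of the group of diffeomorphisms
  let K : Subgroup Y.Diff := φ.ker.map G.subtype
  have hK : Nat.card K = Nat.card φ.ker :=
    Subgroup.card_map_of_injective G.subtype_injective
  have hKG : K ≤ G := by
    rintro _ ⟨g, _, rfl⟩
    exact g.2
  have hKfin : Finite K := by
    have : Finite φ.ker := inferInstance
    exact Nat.finite_of_card_ne_zero (by rw [hK]; exact Nat.card_pos.ne')
  have h2 := part1 Y hY K hKfin (fun g hg => hfree g (hKG hg)) x (by
    rintro _ ⟨g, hg, rfl⟩
    have h3 : φ g = 1 := hg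
    have h4 : Y.rho g = 1 := h3
    change Y.rho g x = x
    rw [h4]
    rfl)
  rw [hK] at h2
  have h3 : (Nat.card G : ℤ) ∣ ((Nat.card (Matrix (Fin (Module.finrank ℤ Y.H2))
      (Fin (Module.finrank ℤ Y.H2)) (ZMod 3))ˣ * Nat.card φ.ker : ℕ) : ℤ) :=
    Int.natCast_dvd_natCast.2 h1
  rw [Nat.cast_mul] at h3
  exact h3.trans (mul_dvd_mul_left _ h2)

/-- The theorem of this file. -/
theorem result :
    (∀ Y : Mfd, IsKnown Y → ∀ G : Subgroup Y.Diff, Finite G → ActsFreely Y G →
      (∀ x, (∀ g ∈ G, Y.rho g x = x) → (Nat.card G : ℤ) ∣ Y.P x ^ 2) ∧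
      (∀ x, (Nat.card G : ℤ) ∣ (Nat.card (Matrix (Fin (Module.finrank ℤ Y.H2))
        (Fin (Module.finrank ℤ Y.H2)) (ZMod 3))ˣ : ℤ) * Y.P x ^ 2)) ∧
    (∀ (C T : Type) (uc : C → Mfd) (deck : ∀ X, Subgroup (uc X).Diff) (top : C → T),
      IsClass uc deck top →
      (∀ t, ∃ N : ℕ, 0 < N ∧ ∀ X, top X = t → Nat.card (deck X) ∣ N) ∧
      ((Set.range top).Finite → (∃ N : ℕ, 0 < N ∧ ∀ X, Nat.card (deck X) ∣ N) ∧
        ∀ (I : Type) (Γ : T → Type) [∀ t, Group (Γ t)]
          (im : ∀ t, {X // top X = t} → Subgroup (Γ t)) (inv : C → I),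
          IsInvariant top Γ im inv → (Set.range inv).Finite)) := by
  classical
  refine ⟨fun Y hY G hG hfree => ⟨part1 Y hY G hG hfree, part2 Y hY G hG hfree⟩, ?_⟩
  intro C T uc deck top hC
  have hA : ∀ t, ∃ N : ℕ, 0 < N ∧ ∀ X, top X = t → Nat.card (deck X) ∣ N := by
    intro t
    by_cases ht : ∃ X, top X = t
    · obtain ⟨X₀, hX₀⟩ := ht
      obtain ⟨x₀, hx₀⟩ := hC.ne X₀
      refine ⟨Nat.card (Matrix (Fin (Module.finrank ℤ (uc X₀).H2))
        (Fin (Module.finrank ℤ (uc X₀).H2)) (ZMod 3))ˣ * ((uc X₀).P x₀ ^ 2).natAbs, ?_, ?_⟩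
      · apply Nat.mul_pos Nat.card_pos
        exact Int.natAbs_pos.2 (pow_ne_zero 2 hx₀)
      · intro X hX
        obtain ⟨φ, hφ⟩ := hC.novikov X₀ X (hX₀.trans hX.symm)
        have h1 := part2 (uc X) (hC.known X) (deck X) (hC.finite X) (hC.free X) (φ x₀)
        have h2 : (uc X).P (φ x₀) ^ 2 = (uc X₀).P x₀ ^ 2 := by
          rw [← sq_abs, hφ, sq_abs]
        have h3 : Module.finrank ℤ (uc X₀).H2 = Module.finrank ℤ (uc X).H2 :=
          LinearEquiv.finrank_eq φ.toIntLinearEquiv
        rw [h2, ← h3] at h1
        rw [← Int.natCast_dvd_natCast, Nat.cast_mul, Int.natAbs_of_nonneg (sq_nonneg _)]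
        exact h1
    · exact ⟨1, one_pos, fun X hX => absurd ⟨X, hX⟩ ht⟩
  refine ⟨hA, fun hfin => ⟨?_, ?_⟩⟩
  · choose N hN hN2 using hA
    refine ⟨∏ t ∈ hfin.toFinset, N t, Finset.prod_pos fun t _ => hN t, fun X => ?_⟩
    exact (hN2 (top X) X rfl).trans
      (Finset.dvd_prod_of_mem N (hfin.mem_toFinset.2 (Set.mem_range_self X)))
  · intro I Γ _ im inv hI
    choose S hS hS2 using hI.bhc
    have hγ : ∀ t (X : {X // top X = t}), ∃ γ : Γ t,
        (im t X).map (MulAut.conj γ).toMonoidHom ∈ S t := fun t X => hS2 t _ (hI.finite t X)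
    choose γ hγ using hγ
    -- the code of a variety: the topological type and the class of the image
    let code : C → (Σ t, Subgroup (Γ t)) := fun X =>
      ⟨top X, (im (top X) ⟨X, rfl⟩).map (MulAut.conj (γ (top X) ⟨X, rfl⟩)).toMonoidHom⟩
    have hcode : ∀ t X (h : top X = t), code X
        = ⟨t, (im t ⟨X, h⟩).map (MulAut.conj (γ t ⟨X, h⟩)).toMonoidHom⟩ := by
      rintro t X rfl
      rfl
    have hcfin : (Set.range code).Finite := by
      refine Set.Finite.subset (s := ⋃ t ∈ hfin.toFinset, (fun H => (⟨t, H⟩ : Σ t, Subgroup (Γ t))) '' S t)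
        (Set.Finite.biUnion hfin.toFinset.finite_toSet fun t _ => (hS t).image _) ?_
      rintro _ ⟨X, rfl⟩
      rw [Set.mem_iUnion₂]
      exact ⟨top X, hfin.mem_toFinset.2 (Set.mem_range_self X), _, hγ _ _, rfl⟩
    have hfac : ∀ X X', code X = code X' → inv X = inv X' := by
      intro X X' h
      have ht : top X = top X' := congrArg Sigma.fst h
      rw [hcode _ X ht, hcode _ X' rfl] at h
      have h2 := eq_of_heq (Sigma.mk.inj_iff.1 h).2
      refine hI.inv (top X') ⟨X, ht⟩ ⟨X', rfl⟩
        ((γ (top X') ⟨X', rfl⟩)⁻¹ * γ (top X') ⟨X, ht⟩) ?_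
      have h3 : ∀ a b : Γ (top X'), ∀ H : Subgroup (Γ (top X')),
          (H.map (MulAut.conj a).toMonoidHom).map (MulAut.conj b).toMonoidHom
            = H.map (MulAut.conj (b * a)).toMonoidHom := by
        intro a b H
        rw [Subgroup.map_map, map_mul]
        rfl
      rw [← h3, h2, h3, inv_mul_cancel, map_one]
      ext y
      simp
    rcases isEmpty_or_nonempty C with hE | ⟨⟨X₀⟩⟩
    · rw [Set.range_eq_empty]
      exact Set.finite_empty
    · let g : (Σ t, Subgroup (Γ t)) → I := fun y =>
        if h : ∃ X, code X = y then inv h.choose else inv X₀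
      refine (hcfin.image g).subset ?_
      rintro _ ⟨X, rfl⟩
      refine ⟨code X, Set.mem_range_self X, ?_⟩
      have h : ∃ X', code X' = code X := ⟨X, rfl⟩
      change (if h : ∃ X', code X' = code X then inv h.choose else inv X₀) = inv X
      rw [dif_pos h]
      exact hfac _ _ h.choose_spec

end Pool.Agent.Results.MP_3d72f2_ag.OrderOfFundamentalGroup
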