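import Mathlib
import Pool.Agent.Q315.OF.Fin
import Pool.Agent.Q315.OF.Inv
import Pool.Agent.Results.MP_3d72f2_ag.OrderOfFundamentalGroup

/-!
# Fundamental groups of Calabi-Yau varieties

The universal cover of a smooth Calabi-Yau variety `X` is `ℂ^q × Y` with `Y` compact and simply
connected, and `π₁(X)` acts by pairs of isometries. We prove that for each topological type of the
universal cover there are only finitely many fundamental groups, finite or not, up to isomorphism,
that the orders of their largest finite normal subgroups divide one number, and that there are only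
finitely many rational cohomology rings with Pontryagin classes. If the universal covers of the
Calabi-Yau varieties of dimension `n` have only finitely many topological types, then the same holds
for all Calabi-Yau varieties of dimension `n`. For the last part the group `Γ t` of `IsInvariant` is
the product of `GL(2q, ℤ)` and the group of automorphisms of the ring `H^*(Y; ℤ)/torsion` with the
Pontryagin classes.
-/

set_option autoImplicit false

namespace Pool.Agent.Results.MP_3d72f2_ag.InfiniteFundamentalGroups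

open Pool.Agent.Q315.OF (IsFP IsoFinite)
open Pool.Agent.Results.MP_3d72f2_ag.OrderOfFundamentalGroup (Mfd IsKnown ActsFreely part2
  IsInvariant)

/-- A class `C` of smooth Calabi-Yau varieties of bounded dimension: `top X` is the topological type
of the universal cover `ℂ^q × Y X` of `X`, `π X` the fundamental group, `p X` the map to the group
`Q X` of isometries of `ℂ^q` given by the action of `π X`. Known properties: `p X` is surjective, its
kernel is finite and acts faithfully and without fixed points on `Y X` (Beauville, Bogomolov, Yau);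
`Q X` is a crystallographic group, so it is finitely presented, and there are only finitely many such
groups up to isomorphism (Bieberbach); `P` is not zero on `H²(Y X)` (ample classes); the topological
type of the universal cover determines `H²(Y X)`, and `P` up to the sign (Novikov). -/
structure IsClass {C T : Type} (Y : C → Mfd) (top : C → T) (π Q : C → Type) [∀ X, Group (π X)]
    [∀ X, Group (Q X)] (p : ∀ X, π X →* Q X) : Prop where
  known : ∀ X, IsKnown (Y X)
  surj : ∀ X, Function.Surjective (p X)
  finite : ∀ X, Finite (p X).ker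
  free : ∀ X, ∃ ι : (p X).ker →* (Y X).Diff, Function.Injective ι ∧ ActsFreely (Y X) ι.range
  fp : ∀ X, IsFP (Q X)
  bieberbach : IsoFinite Q
  ne : ∀ X, ∃ x, (Y X).P x ≠ 0
  novikov : ∀ X X', top X = top X' →
    ∃ φ : (Y X).H2 ≃+ (Y X').H2, ∀ x, |(Y X').P (φ x)| = |(Y X).P x|

/-- The theorem of this file. -/
theorem result (C T : Type) (Y : C → Mfd) (top : C → T) (π Q : C → Type) [∀ X, Group (π X)]
    [∀ X, Group (Q X)] (p : ∀ X, π X →* Q X) (hC : IsClass Y top π Q p) :
    (∀ X, ∀ x, (Nat.card (p X).ker : ℤ) ∣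
      (Nat.card (Matrix (Fin (Module.finrank ℤ (Y X).H2))
        (Fin (Module.finrank ℤ (Y X).H2)) (ZMod 3))ˣ : ℤ) * (Y X).P x ^ 2) ∧
    (∀ t, (∃ N : ℕ, 0 < N ∧ ∀ X, top X = t → Nat.card (p X).ker ∣ N) ∧
      IsoFinite (fun X : {X // top X = t} => π X)) ∧
    ((Set.range top).Finite →
      (∃ N : ℕ, 0 < N ∧ ∀ X, Nat.card (p X).ker ∣ N) ∧ IsoFinite π) ∧
    (∀ (I : Type) (Γ : T → Type) [∀ t, Group (Γ t)]
      (im : ∀ t, {X // top X = t} → Subgroup (Γ t)) (inv : C → I), IsInvariant top Γ im inv →
      (∀ t, {i | ∃ X, top X = t ∧ inv X = i}.Finite) ∧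
      ((Set.range top).Finite → (Set.range inv).Finite)) := by
  classical
  have h0 : ∀ X, ∀ x, (Nat.card (p X).ker : ℤ) ∣
      (Nat.card (Matrix (Fin (Module.finrank ℤ (Y X).H2))
        (Fin (Module.finrank ℤ (Y X).H2)) (ZMod 3))ˣ : ℤ) * (Y X).P x ^ 2 := by
    intro X x
    obtain ⟨ι, hι, hfree⟩ := hC.free X
    have hf := hC.finite X
    have hfin : Finite ι.range := Finite.of_surjective ι.rangeRestrict ι.rangeRestrict_surjective
    have h1 := part2 (Y X) (hC.known X) ι.range hfin hfree x
    have h2 : Nat.card ι.range = Nat.card (p X).ker :=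
      (Nat.card_congr (MonoidHom.ofInjective hι).toEquiv).symm
    rwa [h2] at h1
  have hA : ∀ t, ∃ N : ℕ, 0 < N ∧ ∀ X, top X = t → Nat.card (p X).ker ∣ N := by
    intro t
    by_cases ht : ∃ X, top X = t
    · obtain ⟨X₀, hX₀⟩ := ht
      obtain ⟨x₀, hx₀⟩ := hC.ne X₀
      refine ⟨Nat.card (Matrix (Fin (Module.finrank ℤ (Y X₀).H2))
        (Fin (Module.finrank ℤ (Y X₀).H2)) (ZMod 3))ˣ * ((Y X₀).P x₀ ^ 2).natAbs, ?_, ?_⟩
      · apply Nat.mul_pos Nat.card_pos
        exact Int.natAbs_pos.2 (pow_ne_zero 2 hx₀)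
      · intro X hX
        obtain ⟨φ, hφ⟩ := hC.novikov X₀ X (hX₀.trans hX.symm)
        have h1 := h0 X (φ x₀)
        have h2 : (Y X).P (φ x₀) ^ 2 = (Y X₀).P x₀ ^ 2 := by
          rw [← sq_abs, hφ, sq_abs]
        have h3 : Module.finrank ℤ (Y X₀).H2 = Module.finrank ℤ (Y X).H2 :=
          LinearEquiv.finrank_eq φ.toIntLinearEquiv
        rw [h2, ← h3] at h1
        rw [← Int.natCast_dvd_natCast, Nat.cast_mul, Int.natAbs_of_nonneg (sq_nonneg _)]
        exact h1
    · exact ⟨1, one_pos, fun X hX => absurd ⟨X, hX⟩ ht⟩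
  -- finitely many groups if the orders of the kernels divide one number
  have hB : ∀ (D : Type) (s : D → C) (N : ℕ), 0 < N → (∀ d, Nat.card (p (s d)).ker ∣ N) →
      IsoFinite (fun d => π (s d)) := by
    intro D s N hN hdvd
    have hQf : IsoFinite (fun d => Q (s d)) := by
      obtain ⟨S, hS, hS2⟩ := hC.bieberbach
      choose r hr hr2 using hS2
      have : Finite S := hS.to_subtype
      refine Pool.Agent.Q315.OF.isoFinite_of_code (D := S) (fun d => Q (s d))
        (fun d => ⟨r (s d), hr (s d)⟩) ?_
      intro d d' h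
      have h1 : r (s d) = r (s d') := congrArg Subtype.val h
      obtain ⟨e⟩ := hr2 (s d)
      obtain ⟨e'⟩ := hr2 (s d')
      rw [← h1] at e'
      exact ⟨e.trans e'.symm⟩
    exact Pool.Agent.Q315.OF.ext_finite' (fun d => π (s d)) (fun d => Q (s d))
      (fun d => hC.fp (s d)) hQf (fun d => p (s d)) (fun d => hC.surj (s d)) N
      (fun d => hC.finite (s d)) (fun d => Nat.le_of_dvd hN (hdvd d))
  refine ⟨h0, fun t => ⟨hA t, ?_⟩, fun hfin => ?_, fun I Γ _ im inv hI => ⟨fun t => ?_, fun hfin => ?_⟩⟩
  · obtain ⟨N, hN, hN2⟩ := hA t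
    exact hB {X // top X = t} Subtype.val N hN fun X => hN2 X.1 X.2
  · choose N hN hN2 using hA
    have h1 : 0 < ∏ t ∈ hfin.toFinset, N t := Finset.prod_pos fun t _ => hN t
    have h2 : ∀ X, Nat.card (p X).ker ∣ ∏ t ∈ hfin.toFinset, N t := fun X =>
      (hN2 (top X) X rfl).trans
        (Finset.dvd_prod_of_mem N (hfin.mem_toFinset.2 (Set.mem_range_self X)))
    exact ⟨⟨_, h1, h2⟩, hB C id _ h1 h2⟩
  · refine (Pool.Agent.Q315.OF.inv_finite top Γ im inv hI.finite hI.bhc hI.inv {t}
      (Set.finite_singleton t)).subset ?_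
    rintro i ⟨X, hX, rfl⟩
    exact ⟨X, hX, rfl⟩
  · refine (Pool.Agent.Q315.OF.inv_finite top Γ im inv hI.finite hI.bhc hI.inv (Set.range top)
      hfin).subset ?_
    rintro _ ⟨X, rfl⟩
    exact ⟨X, ⟨X, rfl⟩, rfl⟩

end Pool.Agent.Results.MP_3d72f2_ag.InfiniteFundamentalGroups
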